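import Pool.Agent.H88.OT.Targets
import Mathlib.NumberTheory.EulerProduct.Basic
import Mathlib.NumberTheory.Harmonic.Bounds

/-!
# One third of the sums of two sets of zeros are not zeros: row GB (sums of `1/φ`)
-/

set_option autoImplicit false

open Finset

namespace Pool.Agent.H49.OT

open Pool.Agent.H88.OT

/-! ### Basic facts -/

/-- the function `1/n` as a monoid homomorphism -/
noncomputable def invF : ℕ →* ℝ where
  toFun n := (n : ℝ)⁻¹
  map_one' := by simp
  map_mul' a b := by push_cast; rw [mul_inv]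

theorem gb_prod (m : ℕ) (hm : m ≠ 0) :
    ∏ p ∈ m.primeFactors, (1 - (p : ℝ)⁻¹)⁻¹ = (m : ℝ) / Nat.totient m := by
  have h := congrArg (fun x : ℚ => (x : ℝ)) (Nat.totient_eq_mul_prod_factors m)
  simp only [Rat.cast_natCast, Rat.cast_mul, Rat.cast_prod, Rat.cast_sub, Rat.cast_one,
    Rat.cast_inv] at h
  have hm' : (m : ℝ) ≠ 0 := by exact_mod_cast hm
  have hφ : (Nat.totient m : ℝ) ≠ 0 := by
    exact_mod_cast (Nat.totient_pos.2 (Nat.pos_of_ne_zero hm)).ne'
  have hP : ∏ p ∈ m.primeFactors, (1 - (p : ℝ)⁻¹) ≠ 0 := by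
    intro h0; rw [h0, mul_zero] at h; exact hφ h
  rw [Finset.prod_inv_distrib, h]
  field_simp

/-- finite sums of `1/m` over numbers with prime factors in a given set -/
theorem gb_smooth (m : ℕ) (hm : m ≠ 0) (F : Finset ℕ)
    (hF : ∀ n ∈ F, n ∈ Nat.factoredNumbers m.primeFactors) :
    ∑ n ∈ F, (n : ℝ)⁻¹ ≤ (m : ℝ) / Nat.totient m := by
  have hE := EulerProduct.summable_and_hasSum_factoredNumbers_prod_filter_prime_geometric
    (f := invF) (fun {p} hp => by
      change ‖((p : ℝ))⁻¹‖ < 1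
      rw [norm_inv, Real.norm_natCast]
      exact inv_lt_one_of_one_lt₀ (by exact_mod_cast hp.one_lt)) m.primeFactors
  have h2 := hE.2
  have hfil : m.primeFactors.filter Nat.Prime = m.primeFactors :=
    Finset.filter_true_of_mem fun p hp => Nat.prime_of_mem_primeFactors hp
  rw [hfil] at h2
  have h3 : ∏ p ∈ m.primeFactors, (1 - invF p)⁻¹ = (m : ℝ) / Nat.totient m := gb_prod m hm
  rw [h3] at h2
  have h4 : ∑ n ∈ F.attach, invF (n : ℕ) ≤ (m : ℝ) / Nat.totient m := by
    have h5 := sum_le_hasSum (F.attach.map ⟨fun n : {x // x ∈ F} =>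
      (⟨n.1, hF n.1 n.2⟩ : Nat.factoredNumbers m.primeFactors), fun a b hab => by
        apply Subtype.ext
        exact congrArg (fun z : Nat.factoredNumbers m.primeFactors => (z : ℕ)) hab⟩)
      (fun i _ => by
        change 0 ≤ (((i : ℕ) : ℝ))⁻¹
        positivity) h2
    rwa [Finset.sum_map] at h5
  rw [Finset.sum_attach F (fun n => invF n)] at h4
  exact h4

theorem gb_SF {q Y s : ℕ} (h : s ∈ SF q Y) : 1 ≤ s ∧ s ≤ Y ∧ Squarefree s ∧ Nat.Coprime s q := by
  classical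
  unfold SF at h
  rw [Finset.mem_filter, Finset.mem_Icc] at h
  exact ⟨h.1.1, h.1.2, h.2.1, h.2.2⟩

theorem gb_SF' {q Y s : ℕ} (h1 : 1 ≤ s) (h2 : s ≤ Y) (h3 : Squarefree s) (h4 : Nat.Coprime s q) :
    s ∈ SF q Y := by
  classical
  unfold SF
  rw [Finset.mem_filter, Finset.mem_Icc]
  exact ⟨⟨h1, h2⟩, h3, h4⟩

/-- the part of the radical prime to `q` -/
def rdq (q n : ℕ) : ℕ := ∏ p ∈ n.primeFactors \ q.primeFactors, p

theorem rdq_pf (q n : ℕ) : (rdq q n).primeFactors = n.primeFactors \ q.primeFactors :=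
  Nat.primeFactors_prod fun p hp => Nat.prime_of_mem_primeFactors (Finset.mem_sdiff.1 hp).1

theorem rdq_pos (q n : ℕ) : 0 < rdq q n :=
  Finset.prod_pos fun _ hp => (Nat.prime_of_mem_primeFactors (Finset.mem_sdiff.1 hp).1).pos

theorem rdq_dvd (q n : ℕ) : rdq q n ∣ n :=
  dvd_trans (Finset.prod_dvd_prod_of_subset _ _ _ Finset.sdiff_subset) (Nat.prod_primeFactors_dvd n)

theorem rdq_sf (q n : ℕ) : Squarefree (rdq q n) := by
  unfold rdq
  refine Finset.squarefree_prod_of_pairwise_isCoprime ?_ ?_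
  · intro a ha b hb hab
    change IsRelPrime a b
    rw [← Nat.coprime_iff_isRelPrime]
    exact (Nat.coprime_primes (Nat.prime_of_mem_primeFactors (Finset.mem_sdiff.1 ha).1)
      (Nat.prime_of_mem_primeFactors (Finset.mem_sdiff.1 hb).1)).2 hab
  · intro a ha
    exact (Nat.prime_of_mem_primeFactors (Finset.mem_sdiff.1 ha).1).prime.squarefree

theorem rdq_cop (q n : ℕ) (hq : q ≠ 0) : Nat.Coprime (rdq q n) q := by
  unfold rdq
  refine Nat.Coprime.prod_left fun p hp => ?_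
  have h := Finset.mem_sdiff.1 hp
  have hpp := Nat.prime_of_mem_primeFactors h.1
  rw [Nat.Prime.coprime_iff_not_dvd hpp]
  intro hd
  exact h.2 (Nat.mem_primeFactors.2 ⟨hpp, hd, hq⟩)

/-- Part 1 -/
theorem gb_one (q Y : ℕ) (hq : 1 ≤ q) (hY : 1 ≤ Y) :
    (Nat.totient q : ℝ) / q * Real.log Y ≤ fG q Y := by
  classical
  have hq0 : q ≠ 0 := by omega
  have hφq : (0 : ℝ) < Nat.totient q := by exact_mod_cast Nat.totient_pos.2 hq
  have hqr : (0 : ℝ) < q := by exact_mod_cast hq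
  -- harmonic sum
  have h1 : Real.log Y ≤ ∑ n ∈ Finset.Icc 1 Y, ((n : ℝ))⁻¹ := by
    have h := log_add_one_le_harmonic Y
    rw [harmonic_eq_sum_Icc] at h
    push_cast at h
    refine le_trans (Real.log_le_log (by exact_mod_cast hY) ?_) h
    linarith
  -- fibers
  have h2 : ∑ n ∈ Finset.Icc 1 Y, ((n : ℝ))⁻¹ =
      ∑ s ∈ SF q Y, ∑ n ∈ (Finset.Icc 1 Y).filter (fun n => rdq q n = s), ((n : ℝ))⁻¹ := by
    rw [Finset.sum_fiberwise_of_maps_to]
    intro n hn
    rw [Finset.mem_Icc] at hn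
    exact gb_SF' (rdq_pos q n) (le_trans (Nat.le_of_dvd (by omega) (rdq_dvd q n)) hn.2)
      (rdq_sf q n) (rdq_cop q n hq0)
  have h3 : ∀ s ∈ SF q Y, ∑ n ∈ (Finset.Icc 1 Y).filter (fun n => rdq q n = s), ((n : ℝ))⁻¹ ≤
      (q : ℝ) / Nat.totient q * (1 / (Nat.totient s : ℝ)) := by
    intro s hs
    obtain ⟨hs1, hsY, hsf, hsq⟩ := gb_SF hs
    have hs0 : s ≠ 0 := by omega
    have hsr : (0 : ℝ) < s := by exact_mod_cast hs1
    have hφs : (0 : ℝ) < Nat.totient s := by exact_mod_cast Nat.totient_pos.2 hs1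
    have hinj : Set.InjOn (fun n => n / s)
        ((Finset.Icc 1 Y).filter (fun n => rdq q n = s) : Set ℕ) := by
      intro a ha b hb hab
      have ha' := (Finset.mem_filter.1 (Finset.mem_coe.1 ha)).2
      have hb' := (Finset.mem_filter.1 (Finset.mem_coe.1 hb)).2
      have ha2 : s ∣ a := ha' ▸ rdq_dvd q a
      have hb2 : s ∣ b := hb' ▸ rdq_dvd q b
      have hab' : a / s = b / s := hab
      rw [← Nat.mul_div_cancel' ha2, ← Nat.mul_div_cancel' hb2, hab']
    have h4 : ∑ n ∈ (Finset.Icc 1 Y).filter (fun n => rdq q n = s), ((n : ℝ))⁻¹ =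
        (s : ℝ)⁻¹ * ∑ m ∈ ((Finset.Icc 1 Y).filter (fun n => rdq q n = s)).image (fun n => n / s),
          ((m : ℝ))⁻¹ := by
      rw [Finset.sum_image hinj, Finset.mul_sum]
      refine Finset.sum_congr rfl fun n hn => ?_
      have hn' := (Finset.mem_filter.1 hn).2
      have hd : s ∣ n := hn' ▸ rdq_dvd q n
      rw [← mul_inv, ← Nat.cast_mul, Nat.mul_div_cancel' hd]
    have h5 := gb_smooth (s * q) (Nat.mul_ne_zero hs0 hq0)
      (((Finset.Icc 1 Y).filter (fun n => rdq q n = s)).image (fun n => n / s)) (by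
        intro m hm
        obtain ⟨n, hn, rfl⟩ := Finset.mem_image.1 hm
        obtain ⟨hn1, hn2⟩ := Finset.mem_filter.1 hn
        rw [Finset.mem_Icc] at hn1
        have hd : s ∣ n := hn2 ▸ rdq_dvd q n
        have hn0 : n ≠ 0 := by omega
        have hns : n / s ≠ 0 := by
          intro h0
          have := Nat.mul_div_cancel' hd
          rw [h0, mul_zero] at this
          exact hn0 this.symm
        refine Nat.mem_factoredNumbers_of_primeFactors_subset hns ?_
        intro p hp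
        have hp1 : p ∈ n.primeFactors :=
          Nat.primeFactors_mono (Nat.div_dvd_of_dvd hd) hn0 hp
        rw [Nat.primeFactors_mul hs0 hq0, Finset.mem_union]
        by_cases hpq : p ∈ q.primeFactors
        · exact Or.inr hpq
        · left
          rw [← hn2, rdq_pf]
          exact Finset.mem_sdiff.2 ⟨hp1, hpq⟩)
    rw [h4]
    refine le_trans (mul_le_mul_of_nonneg_left h5 (by positivity)) (le_of_eq ?_)
    rw [Nat.totient_mul hsq]
    push_cast
    field_simp
  have h6 : ∑ n ∈ Finset.Icc 1 Y, ((n : ℝ))⁻¹ ≤ (q : ℝ) / Nat.totient q * fG q Y := by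
    rw [h2, fG, Finset.mul_sum]
    exact Finset.sum_le_sum h3
  calc (Nat.totient q : ℝ) / q * Real.log Y
      ≤ (Nat.totient q : ℝ) / q * ((q : ℝ) / Nat.totient q * fG q Y) :=
        mul_le_mul_of_nonneg_left (le_trans h1 h6) (by positivity)
    _ = fG q Y := by field_simp

/-! ### Part 2 -/

/-- short harmonic sums -/
theorem gb_harm (w : ℝ) (hw : 0 < w) (N : ℕ) :
    ((N : ℝ) ≤ w → ∑ s ∈ (Finset.Icc 1 N).filter (fun s : ℕ => w < s), (1 : ℝ) / s = 0) ∧
    (w < N → ∑ s ∈ (Finset.Icc 1 N).filter (fun s : ℕ => w < s), (1 : ℝ) / s ≤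
      1 + Real.log (N / w)) := by
  induction N with
  | zero =>
    refine ⟨fun _ => by simp, fun h => ?_⟩
    simp only [Nat.cast_zero] at h
    linarith
  | succ n ih =>
    have hsplit : w < ((n + 1 : ℕ) : ℝ) →
        ∑ s ∈ (Finset.Icc 1 (n + 1)).filter (fun s : ℕ => w < s), (1 : ℝ) / s =
        ∑ s ∈ (Finset.Icc 1 n).filter (fun s : ℕ => w < s), (1 : ℝ) / s +
          1 / ((n + 1 : ℕ) : ℝ) := by
      intro h
      rw [Finset.sum_filter, Finset.sum_filter, Finset.sum_Icc_succ_top (by omega), if_pos h]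
    refine ⟨fun h => ?_, fun h => ?_⟩
    · apply Finset.sum_eq_zero
      intro s hs
      obtain ⟨h1, h2⟩ := Finset.mem_filter.1 hs
      rw [Finset.mem_Icc] at h1
      exfalso
      have : (s : ℝ) ≤ ((n + 1 : ℕ) : ℝ) := by exact_mod_cast h1.2
      linarith
    · rw [hsplit h]
      rcases le_or_gt (n : ℝ) w with hn | hn
      · rw [ih.1 hn, zero_add]
        have h1 : (1 : ℝ) / ((n + 1 : ℕ) : ℝ) ≤ 1 := by
          rw [div_le_one (by positivity)]
          exact_mod_cast Nat.succ_le_succ (Nat.zero_le n)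
        have h2 : 0 ≤ Real.log (((n + 1 : ℕ) : ℝ) / w) := by
          apply Real.log_nonneg
          rw [le_div_iff₀ hw]
          linarith
        linarith
      · have hn0 : (0 : ℝ) < n := lt_trans hw hn
        have h1 := ih.2 hn
        have h2 : (1 : ℝ) / ((n + 1 : ℕ) : ℝ) ≤
            Real.log (((n + 1 : ℕ) : ℝ) / w) - Real.log ((n : ℝ) / w) := by
          rw [Real.log_div (by positivity) hw.ne', Real.log_div hn0.ne' hw.ne']
          have h3 := Real.one_sub_inv_le_log_of_pos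
            (show (0 : ℝ) < ((n + 1 : ℕ) : ℝ) / n by positivity)
          rw [Real.log_div (by positivity) hn0.ne'] at h3
          have h4 : (1 : ℝ) / ((n + 1 : ℕ) : ℝ) = 1 - (((n + 1 : ℕ) : ℝ) / n)⁻¹ := by
            push_cast
            field_simp
            ring
          rw [h4]
          linarith
        linarith

theorem gb_harm' (w x : ℝ) (hw : 0 < w) (hx : 1 ≤ x) (N : ℕ) (hN : (N : ℝ) ≤ w * x) :
    ∑ s ∈ (Finset.Icc 1 N).filter (fun s : ℕ => w < s), (1 : ℝ) / s ≤ 1 + Real.log x := by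
  have h := gb_harm w hw N
  rcases le_or_gt (N : ℝ) w with h1 | h1
  · rw [h.1 h1]
    have := Real.log_nonneg hx
    linarith
  · refine le_trans (h.2 h1) ?_
    have h2 : Real.log ((N : ℝ) / w) ≤ Real.log x := by
      apply Real.log_le_log (by have := lt_trans hw h1; positivity)
      rw [div_le_iff₀ hw]
      linarith
    linarith

/-- `d ≤ 2 φ(d)²` for squarefree `d` -/
theorem gb_phi (d : ℕ) (hd : Squarefree d) : d ≤ 2 * (Nat.totient d) ^ 2 := by
  have h1 : Nat.totient d = ∏ p ∈ d.primeFactors, (p - 1) := by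
    have h := Nat.totient_mul_prod_primeFactors d
    rw [Nat.prod_primeFactors_of_squarefree hd, mul_comm] at h
    exact Nat.eq_of_mul_eq_mul_left (Nat.pos_of_ne_zero hd.ne_zero) h
  have h2 : ∏ p ∈ d.primeFactors, (if p = 2 then 2 else 1) ≤ 2 := by
    rw [Finset.prod_ite_eq']
    split_ifs <;> norm_num
  calc d = ∏ p ∈ d.primeFactors, p := (Nat.prod_primeFactors_of_squarefree hd).symm
    _ ≤ ∏ p ∈ d.primeFactors, ((if p = 2 then 2 else 1) * (p - 1) ^ 2) := by
        refine Finset.prod_le_prod' fun p hp => ?_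
        have hpp := Nat.prime_of_mem_primeFactors hp
        split_ifs with h
        · subst h; norm_num
        · have h3 : 3 ≤ p := by
            have := hpp.two_le
            omega
          obtain ⟨k, rfl⟩ : ∃ k, p = k + 3 := ⟨p - 3, by omega⟩
          simp only [show k + 3 - 1 = k + 2 by omega, one_mul]
          nlinarith
    _ = (∏ p ∈ d.primeFactors, (if p = 2 then 2 else 1)) *
        (∏ p ∈ d.primeFactors, (p - 1)) ^ 2 := by
        rw [Finset.prod_mul_distrib, Finset.prod_pow]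
    _ ≤ 2 * (Nat.totient d) ^ 2 := by
        rw [← h1]
        exact Nat.mul_le_mul_right _ h2

theorem gb_phi' (d : ℕ) (hd : Squarefree d) :
    1 / ((d : ℝ) * Nat.totient d) ≤ 2 * (d : ℝ) ^ (-(3 / 2) : ℝ) := by
  have hd0 : (0 : ℝ) < d := by exact_mod_cast Nat.pos_of_ne_zero hd.ne_zero
  have hφ : (0 : ℝ) < Nat.totient d := by
    exact_mod_cast Nat.totient_pos.2 (Nat.pos_of_ne_zero hd.ne_zero)
  have h1 : (d : ℝ) ≤ 2 * (Nat.totient d : ℝ) ^ 2 := by exact_mod_cast gb_phi d hd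
  have h2 : Real.sqrt d ≤ 2 * Nat.totient d := by
    apply Real.sqrt_le_iff.2
    constructor
    · positivity
    · nlinarith
  have h3 : (d : ℝ) ^ (-(3 / 2) : ℝ) = 1 / ((d : ℝ) * Real.sqrt d) := by
    rw [show (-(3 / 2) : ℝ) = -((1 : ℝ) + 1 / 2) by norm_num, Real.rpow_neg hd0.le,
      Real.rpow_add hd0, Real.rpow_one, ← Real.sqrt_eq_rpow, one_div]
  have hs : 0 < Real.sqrt d := Real.sqrt_pos.2 hd0
  rw [h3, mul_one_div, div_le_div_iff₀ (by positivity) (by positivity)]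
  nlinarith [mul_le_mul_of_nonneg_left h2 hd0.le]

/-- `s/φ(s) = ∑_{d ∣ s} 1/φ(d)` for squarefree `s` -/
theorem gb_conv (s : ℕ) (hs : Squarefree s) :
    1 / (Nat.totient s : ℝ) = ∑ d ∈ s.divisors, 1 / ((s : ℝ) * Nat.totient d) := by
  have hs0 : s ≠ 0 := hs.ne_zero
  have hsr : (s : ℝ) ≠ 0 := by exact_mod_cast hs0
  have hφ : (Nat.totient s : ℝ) ≠ 0 := by
    exact_mod_cast (Nat.totient_pos.2 (Nat.pos_of_ne_zero hs0)).ne'
  have h1 : (s : ℝ) = ∑ d ∈ s.divisors, (Nat.totient (s / d) : ℝ) := by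
    rw [Nat.sum_div_divisors s (fun d => (Nat.totient d : ℝ))]
    exact_mod_cast (Nat.sum_totient s).symm
  have h2 : ∀ d ∈ s.divisors, 1 / ((s : ℝ) * Nat.totient d) =
      (Nat.totient (s / d) : ℝ) * (1 / ((s : ℝ) * Nat.totient s)) := by
    intro d hd
    have hdd := (Nat.mem_divisors.1 hd).1
    have hcop : Nat.Coprime d (s / d) := by
      apply Nat.coprime_of_squarefree_mul
      rwa [Nat.mul_div_cancel' hdd]
    have h3 : Nat.totient s = Nat.totient d * Nat.totient (s / d) := by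
      rw [← Nat.totient_mul hcop, Nat.mul_div_cancel' hdd]
    have h4 : (Nat.totient d : ℝ) ≠ 0 := by
      intro h
      rw [h3] at hφ
      push_cast at hφ
      rw [h, zero_mul] at hφ
      exact hφ rfl
    have h5 : (Nat.totient (s / d) : ℝ) ≠ 0 := by
      intro h
      rw [h3] at hφ
      push_cast at hφ
      rw [h, mul_zero] at hφ
      exact hφ rfl
    rw [h3]
    push_cast
    field_simp
  rw [Finset.sum_congr rfl h2, ← Finset.sum_mul, ← h1]
  field_simp

/-- Part 2 -/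
theorem gb_two : ∃ C : ℝ, 0 < C ∧ ∀ z x : ℝ, 0 < z → 1 ≤ x →
    ∑ s ∈ (Finset.Icc 1 ⌊z * x⌋₊).filter (fun s : ℕ => Squarefree s ∧ z < s),
      1 / (Nat.totient s : ℝ) ≤ C * (1 + Real.log x) := by
  have hsum : Summable (fun n : ℕ => 2 * (n : ℝ) ^ (-(3 / 2) : ℝ)) :=
    (Real.summable_nat_rpow.2 (by norm_num)).mul_left 2
  have hnn : ∀ n : ℕ, 0 ≤ 2 * (n : ℝ) ^ (-(3 / 2) : ℝ) := fun n => by positivity
  refine ⟨∑' n : ℕ, 2 * (n : ℝ) ^ (-(3 / 2) : ℝ) + 1, by
    have h0 : (0 : ℝ) ≤ ∑' n : ℕ, 2 * (n : ℝ) ^ (-(3 / 2) : ℝ) := tsum_nonneg hnn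
    linarith, fun z x hz hx => ?_⟩
  classical
  set N := ⌊z * x⌋₊ with hN
  have hlog := Real.log_nonneg hx
  have hNle : (N : ℝ) ≤ z * x := Nat.floor_le (by positivity)
  set S := (Finset.Icc 1 N).filter (fun s : ℕ => Squarefree s ∧ z < s) with hS
  -- expand
  have h1 : ∑ s ∈ S, 1 / (Nat.totient s : ℝ) =
      ∑ d ∈ (Finset.Icc 1 N).filter Squarefree, ∑ s ∈ S.filter (fun s => d ∣ s),
        1 / ((s : ℝ) * Nat.totient d) := by
    rw [Finset.sum_congr rfl (fun s hs => gb_conv s (Finset.mem_filter.1 hs).2.1)]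
    have h2 : ∀ s ∈ S, ∑ d ∈ s.divisors, 1 / ((s : ℝ) * Nat.totient d) =
        ∑ d ∈ (Finset.Icc 1 N).filter Squarefree,
          if d ∣ s then 1 / ((s : ℝ) * Nat.totient d) else 0 := by
      intro s hs
      obtain ⟨hs1, hs2, -⟩ := Finset.mem_filter.1 hs
      rw [Finset.mem_Icc] at hs1
      rw [← Finset.sum_filter]
      apply Finset.sum_congr _ (fun _ _ => rfl)
      ext d
      rw [Nat.mem_divisors, Finset.mem_filter, Finset.mem_filter, Finset.mem_Icc]
      constructor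
      · rintro ⟨hd, hs0⟩
        exact ⟨⟨⟨Nat.pos_of_dvd_of_pos hd (by omega), le_trans (Nat.le_of_dvd (by omega) hd) hs1.2⟩,
          hs2.squarefree_of_dvd hd⟩, hd⟩
      · rintro ⟨-, hd⟩
        exact ⟨hd, by omega⟩
    rw [Finset.sum_congr rfl h2, Finset.sum_comm]
    refine Finset.sum_congr rfl fun d _ => ?_
    exact (Finset.sum_filter (fun s => d ∣ s) _).symm
  have h3 : ∀ d ∈ (Finset.Icc 1 N).filter Squarefree, ∑ s ∈ S.filter (fun s => d ∣ s),
      1 / ((s : ℝ) * Nat.totient d) ≤ 2 * (d : ℝ) ^ (-(3 / 2) : ℝ) * (1 + Real.log x) := by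
    intro d hd
    obtain ⟨hd1, hd2⟩ := Finset.mem_filter.1 hd
    rw [Finset.mem_Icc] at hd1
    have hdr : (0 : ℝ) < d := by exact_mod_cast hd1.1
    have hφd : (0 : ℝ) < Nat.totient d := by exact_mod_cast Nat.totient_pos.2 hd1.1
    have hinj : Set.InjOn (fun n => n / d) (S.filter (fun s => d ∣ s) : Set ℕ) := by
      intro a ha b hb hab
      have ha' := (Finset.mem_filter.1 (Finset.mem_coe.1 ha)).2
      have hb' := (Finset.mem_filter.1 (Finset.mem_coe.1 hb)).2
      have hab' : a / d = b / d := hab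
      rw [← Nat.mul_div_cancel' ha', ← Nat.mul_div_cancel' hb', hab']
    have h4 : ∑ s ∈ S.filter (fun s => d ∣ s), 1 / ((s : ℝ) * Nat.totient d) =
        1 / ((d : ℝ) * Nat.totient d) *
          ∑ t ∈ (S.filter (fun s => d ∣ s)).image (fun n => n / d), 1 / (t : ℝ) := by
      rw [Finset.sum_image hinj, Finset.mul_sum]
      refine Finset.sum_congr rfl fun s hs => ?_
      have hd' := (Finset.mem_filter.1 hs).2
      have h5 : (s : ℝ) = d * ((s / d : ℕ) : ℝ) := by
        rw [← Nat.cast_mul, Nat.mul_div_cancel' hd']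
      have h6 : ((s / d : ℕ) : ℝ) ≠ 0 := by
        intro h0
        rw [h0, mul_zero] at h5
        have h7 : s = 0 := by exact_mod_cast h5
        have h8 := (Finset.mem_Icc.1 (Finset.mem_filter.1 (Finset.mem_filter.1 hs).1).1).1
        omega
      rw [h5]
      field_simp
    have h6 : ∑ t ∈ (S.filter (fun s => d ∣ s)).image (fun n => n / d), 1 / (t : ℝ) ≤
        1 + Real.log x := by
      refine le_trans (Finset.sum_le_sum_of_subset_of_nonneg (t := (Finset.Icc 1 (N / d)).filter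
        (fun t : ℕ => z / d < t)) ?_ (fun t _ _ => by positivity)) ?_
      · intro t ht
        obtain ⟨s, hs, rfl⟩ := Finset.mem_image.1 ht
        obtain ⟨hs1, hs2⟩ := Finset.mem_filter.1 hs
        obtain ⟨hs3, hs4⟩ := Finset.mem_filter.1 hs1
        rw [Finset.mem_Icc] at hs3
        rw [Finset.mem_filter, Finset.mem_Icc]
        refine ⟨⟨Nat.div_pos (Nat.le_of_dvd (by omega) hs2) hd1.1, Nat.div_le_div_right hs3.2⟩, ?_⟩
        rw [div_lt_iff₀ hdr, ← Nat.cast_mul, Nat.div_mul_cancel hs2]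
        exact hs4.2
      · refine gb_harm' (z / d) x (by positivity) hx (N / d) ?_
        refine le_trans Nat.cast_div_le ?_
        rw [div_mul_eq_mul_div]
        exact div_le_div_of_nonneg_right hNle hdr.le
    rw [h4]
    exact mul_le_mul (gb_phi' d hd2) h6 (Finset.sum_nonneg fun t _ => by positivity)
      (by positivity)
  rw [h1]
  refine le_trans (Finset.sum_le_sum h3) ?_
  rw [← Finset.sum_mul]
  refine mul_le_mul_of_nonneg_right ?_ (by linarith)
  have h7 := hsum.sum_le_tsum ((Finset.Icc 1 N).filter Squarefree) (fun n _ => hnn n)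
  linarith

/-! ### Part 3 -/

theorem gb_logp (p : ℕ) (hp : p.Prime) :
    Real.log p / ((p : ℝ) - 1) ^ 2 ≤ 8 * (p : ℝ) ^ (-(3 / 2) : ℝ) := by
  have hp2 : (2 : ℝ) ≤ p := by exact_mod_cast hp.two_le
  have hp0 : (0 : ℝ) < p := by linarith
  have hs : 0 < Real.sqrt p := Real.sqrt_pos.2 hp0
  have hss : Real.sqrt p * Real.sqrt p = p := Real.mul_self_sqrt hp0.le
  have h1 : Real.log p ≤ 2 * Real.sqrt p := by
    have h := Real.log_le_sub_one_of_pos hs
    rw [Real.log_sqrt hp0.le] at h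
    linarith
  have h2 : (p : ℝ) ^ 2 / 4 ≤ ((p : ℝ) - 1) ^ 2 := by nlinarith
  have h3 : (p : ℝ) ^ (-(3 / 2) : ℝ) = 1 / ((p : ℝ) * Real.sqrt p) := by
    rw [show (-(3 / 2) : ℝ) = -((1 : ℝ) + 1 / 2) by norm_num, Real.rpow_neg hp0.le,
      Real.rpow_add hp0, Real.rpow_one, ← Real.sqrt_eq_rpow, one_div]
  rw [h3, mul_one_div, div_le_div_iff₀ (by nlinarith) (by positivity)]
  calc Real.log p * (p * Real.sqrt p) ≤ (2 * Real.sqrt p) * (p * Real.sqrt p) :=
        mul_le_mul_of_nonneg_right h1 (by positivity)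
    _ = 2 * (p : ℝ) ^ 2 := by
        rw [show 2 * Real.sqrt p * (p * Real.sqrt p) = 2 * p * (Real.sqrt p * Real.sqrt p) by ring,
          hss]
        ring
    _ ≤ 8 * ((p : ℝ) - 1) ^ 2 := by linarith

/-- Part 3 -/
theorem gb_three : ∃ C : ℝ, 0 < C ∧ ∀ q Y : ℕ, 1 ≤ q → 1 ≤ Y →
    ∑ s ∈ SF q Y, la s / (Nat.totient s : ℝ) ≤ C * fG q Y := by
  have hsum : Summable (fun n : ℕ => 8 * (n : ℝ) ^ (-(3 / 2) : ℝ)) :=
    (Real.summable_nat_rpow.2 (by norm_num)).mul_left 8
  have hnn : ∀ n : ℕ, 0 ≤ 8 * (n : ℝ) ^ (-(3 / 2) : ℝ) := fun n => by positivity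
  refine ⟨∑' n : ℕ, 8 * (n : ℝ) ^ (-(3 / 2) : ℝ) + 1, by
    have h0 : (0 : ℝ) ≤ ∑' n : ℕ, 8 * (n : ℝ) ^ (-(3 / 2) : ℝ) := tsum_nonneg hnn
    linarith, fun q Y hq hY => ?_⟩
  classical
  have hG : 0 ≤ fG q Y := Finset.sum_nonneg fun d _ => by positivity
  have h1 : ∑ s ∈ SF q Y, la s / (Nat.totient s : ℝ) =
      ∑ p ∈ (Finset.Icc 1 Y).filter Nat.Prime, ∑ s ∈ (SF q Y).filter (fun s => p ∣ s),
        Real.log p / ((p : ℝ) - 1) / (Nat.totient s : ℝ) := by
    have h2 : ∀ s ∈ SF q Y, la s / (Nat.totient s : ℝ) =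
        ∑ p ∈ (Finset.Icc 1 Y).filter Nat.Prime,
          if p ∣ s then Real.log p / ((p : ℝ) - 1) / (Nat.totient s : ℝ) else 0 := by
      intro s hs
      obtain ⟨hs1, hs2, -, -⟩ := gb_SF hs
      rw [← Finset.sum_filter, la, Finset.sum_div]
      apply Finset.sum_congr _ (fun _ _ => rfl)
      ext p
      rw [Nat.mem_primeFactors, Finset.mem_filter, Finset.mem_filter, Finset.mem_Icc]
      constructor
      · rintro ⟨hp, hd, -⟩
        exact ⟨⟨⟨hp.one_lt.le, le_trans (Nat.le_of_dvd (by omega) hd) hs2⟩, hp⟩, hd⟩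
      · rintro ⟨⟨-, hp⟩, hd⟩
        exact ⟨hp, hd, by omega⟩
    rw [Finset.sum_congr rfl h2, Finset.sum_comm]
    refine Finset.sum_congr rfl fun p _ => ?_
    rw [Finset.sum_filter]
  have h3 : ∀ p ∈ (Finset.Icc 1 Y).filter Nat.Prime, ∑ s ∈ (SF q Y).filter (fun s => p ∣ s),
      Real.log p / ((p : ℝ) - 1) / (Nat.totient s : ℝ) ≤
        8 * (p : ℝ) ^ (-(3 / 2) : ℝ) * fG q Y := by
    intro p hp
    obtain ⟨-, hpp⟩ := Finset.mem_filter.1 hp
    have hp2 : (2 : ℝ) ≤ p := by exact_mod_cast hpp.two_le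
    have hlog : 0 ≤ Real.log p := Real.log_nonneg (by linarith)
    have hinj : Set.InjOn (fun n => n / p) ((SF q Y).filter (fun s => p ∣ s) : Set ℕ) := by
      intro a ha b hb hab
      have ha' := (Finset.mem_filter.1 (Finset.mem_coe.1 ha)).2
      have hb' := (Finset.mem_filter.1 (Finset.mem_coe.1 hb)).2
      have hab' : a / p = b / p := hab
      rw [← Nat.mul_div_cancel' ha', ← Nat.mul_div_cancel' hb', hab']
    have h4 : ∑ s ∈ (SF q Y).filter (fun s => p ∣ s),
        Real.log p / ((p : ℝ) - 1) / (Nat.totient s : ℝ) =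
        Real.log p / ((p : ℝ) - 1) ^ 2 *
          ∑ t ∈ ((SF q Y).filter (fun s => p ∣ s)).image (fun n => n / p),
            1 / (Nat.totient t : ℝ) := by
      rw [Finset.sum_image hinj, Finset.mul_sum]
      refine Finset.sum_congr rfl fun s hs => ?_
      obtain ⟨hs1, hd⟩ := Finset.mem_filter.1 hs
      obtain ⟨hs2, hs3, hs4, -⟩ := gb_SF hs1
      have hcop : Nat.Coprime p (s / p) := by
        apply Nat.coprime_of_squarefree_mul
        rwa [Nat.mul_div_cancel' hd]
      have h5 : Nat.totient s = (p - 1) * Nat.totient (s / p) := by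
        rw [← Nat.totient_prime hpp, ← Nat.totient_mul hcop, Nat.mul_div_cancel' hd]
      have h6 : ((p - 1 : ℕ) : ℝ) = (p : ℝ) - 1 := by
        rw [Nat.cast_sub hpp.one_lt.le, Nat.cast_one]
      rw [h5, Nat.cast_mul, h6, div_div, div_mul_div_comm, mul_one]
      congr 1
      ring
    have h7 : ∑ t ∈ ((SF q Y).filter (fun s => p ∣ s)).image (fun n => n / p),
        1 / (Nat.totient t : ℝ) ≤ fG q Y := by
      unfold fG
      refine Finset.sum_le_sum_of_subset_of_nonneg ?_ (fun t _ _ => by positivity)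
      intro t ht
      obtain ⟨s, hs, rfl⟩ := Finset.mem_image.1 ht
      obtain ⟨hs1, hd⟩ := Finset.mem_filter.1 hs
      obtain ⟨hs2, hs3, hs4, hs5⟩ := gb_SF hs1
      exact gb_SF' (Nat.div_pos (Nat.le_of_dvd (by omega) hd) hpp.pos)
        (le_trans (Nat.div_le_self _ _) hs3) (hs4.squarefree_of_dvd (Nat.div_dvd_of_dvd hd))
        (Nat.Coprime.coprime_dvd_left (Nat.div_dvd_of_dvd hd) hs5)
    rw [h4]
    exact mul_le_mul (gb_logp p hpp) h7 (Finset.sum_nonneg fun t _ => by positivity)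
      (by positivity)
  rw [h1]
  refine le_trans (Finset.sum_le_sum h3) ?_
  rw [← Finset.sum_mul]
  refine mul_le_mul_of_nonneg_right ?_ hG
  have h8 := hsum.sum_le_tsum ((Finset.Icc 1 Y).filter Nat.Prime) (fun n _ => hnn n)
  linarith

open scoped Classical in
theorem pf_GB : T_GB := by
  refine ⟨gb_one, ?_, gb_three⟩
  obtain ⟨C, hC, h⟩ := gb_two
  refine ⟨C, hC, fun z x hz hx => ?_⟩
  convert h z x hz hx using 2

end Pool.Agent.H49.OT
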