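import Pool.Agent.H88.OT.Targets
import Pool.Agent.H3.PC.DB

/-!
# The quadruple sum over the high frequencies
-/

set_option autoImplicit false

open Complex MeasureTheory Set

namespace Pool.Agent.H49.OT

open Pool.Agent.H88.OT

/-- the greatest common divisor of a quadruple `(m, n, h, k)` -/
def gq (q : ℕ × ℕ × ℕ × ℕ) : ℕ := Nat.gcd (q.2.1 * q.2.2.2) (q.1 * q.2.2.1)

/-- the reduced fraction of a quadruple -/
def fq (q : ℕ × ℕ × ℕ × ℕ) : ℕ × ℕ := ((q.2.1 * q.2.2.2) / gq q, (q.1 * q.2.2.1) / gq q)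

/-- a good quadruple -/
def Gd (N : ℕ) (q : ℕ × ℕ × ℕ × ℕ) : Prop :=
  1 ≤ q.1 ∧ 1 ≤ q.2.1 ∧ 1 ≤ q.2.2.1 ∧ 1 ≤ q.2.2.2 ∧ q.2.1 * q.2.2.2 * (q.1 * q.2.2.1) ≤ N

lemma Gd.props {N : ℕ} {q : ℕ × ℕ × ℕ × ℕ} (h : Gd N q) :
    1 ≤ gq q ∧ 1 ≤ (fq q).1 ∧ 1 ≤ (fq q).2 ∧ Nat.Coprime (fq q).1 (fq q).2 ∧
      (fq q).1 * gq q = q.2.1 * q.2.2.2 ∧ (fq q).2 * gq q = q.1 * q.2.2.1 ∧
      (fq q).1 * gq q ≤ N ∧ (fq q).2 * gq q ≤ N := by
  obtain ⟨h1, h2, h3, h4, h5⟩ := h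
  have h6 : 0 < q.2.1 * q.2.2.2 := Nat.mul_pos h2 h4
  have h7 : 0 < q.1 * q.2.2.1 := Nat.mul_pos h1 h3
  have hg : 0 < gq q := Nat.gcd_pos_of_pos_left _ h6
  have d1 : gq q ∣ q.2.1 * q.2.2.2 := Nat.gcd_dvd_left _ _
  have d2 : gq q ∣ q.1 * q.2.2.1 := Nat.gcd_dvd_right _ _
  have e1 : (fq q).1 * gq q = q.2.1 * q.2.2.2 := Nat.div_mul_cancel d1
  have e2 : (fq q).2 * gq q = q.1 * q.2.2.1 := Nat.div_mul_cancel d2
  refine ⟨hg, Nat.div_pos (Nat.le_of_dvd h6 d1) hg, Nat.div_pos (Nat.le_of_dvd h7 d2) hg,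
    Nat.coprime_div_gcd_div_gcd hg, e1, e2, ?_, ?_⟩
  · rw [e1]
    exact (Nat.le_mul_of_pos_right _ h7).trans h5
  · rw [e2]
    exact (Nat.le_mul_of_pos_left _ h6).trans h5

/-- the sum over a fibre -/
lemma fibre {N : ℕ} (hN : 1 ≤ N) {C0 ε : ℝ} (hC0 : 1 ≤ C0) (hε : 0 < ε)
    (hdiv : ∀ n : ℕ, 1 ≤ n → (n.divisors.card : ℝ) ≤ C0 * (n : ℝ) ^ ε)
    (S : Finset (ℕ × ℕ × ℕ × ℕ)) (p : ℕ × ℕ) (hS : ∀ q ∈ S, Gd N q ∧ fq q = p) :
    ∑ q ∈ S, ((gq q : ℝ))⁻¹ ≤ C0 ^ 2 * (N : ℝ) ^ (2 * ε) * (1 + Real.log N) := by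
  classical
  have hN0 : (0 : ℝ) < N := by exact_mod_cast hN
  have hmaps : ∀ q ∈ S, gq q ∈ Finset.Icc 1 N := by
    intro q hq
    obtain ⟨h1, h2⟩ := hS q hq
    obtain ⟨a1, a2, _, _, _, _, a7, _⟩ := h1.props
    rw [Finset.mem_Icc]
    exact ⟨a1, (Nat.le_mul_of_pos_left _ a2).trans a7⟩
  rw [← Finset.sum_fiberwise_of_maps_to hmaps]
  have hcard : ∀ γ ∈ Finset.Icc 1 N, ((S.filter fun q => gq q = γ).card : ℝ) ≤
      C0 ^ 2 * (N : ℝ) ^ (2 * ε) := by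
    intro γ _
    by_cases hne : (S.filter fun q => gq q = γ).Nonempty
    · obtain ⟨q₀, hq₀⟩ := hne
      rw [Finset.mem_filter] at hq₀
      obtain ⟨h1, h2⟩ := hS q₀ hq₀.1
      obtain ⟨a1, a2, a3, _, _, _, a7, a8⟩ := h1.props
      rw [h2, hq₀.2] at a7 a8
      rw [h2] at a2 a3
      rw [hq₀.2] at a1
      have hle : (S.filter fun q => gq q = γ).card ≤
          ((p.1 * γ).divisorsAntidiagonal ×ˢ (p.2 * γ).divisorsAntidiagonal).card := by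
        refine Finset.card_le_card_of_injOn
          (fun q : ℕ × ℕ × ℕ × ℕ => ((q.2.1, q.2.2.2), (q.1, q.2.2.1))) ?_ ?_
        · intro q hq
          rw [Finset.mem_coe, Finset.mem_filter] at hq
          obtain ⟨g1, g2⟩ := hS q hq.1
          obtain ⟨_, _, _, _, b5, b6, _, _⟩ := g1.props
          rw [g2, hq.2] at b5 b6
          rw [Finset.mem_coe, Finset.mem_product, Nat.mem_divisorsAntidiagonal,
            Nat.mem_divisorsAntidiagonal]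
          exact ⟨⟨b5.symm, (Nat.mul_pos a2 a1).ne'⟩, ⟨b6.symm, (Nat.mul_pos a3 a1).ne'⟩⟩
        · rintro ⟨m, n, h, k⟩ _ ⟨m', n', h', k'⟩ _ he
          simp only [Prod.mk.injEq] at he ⊢
          exact ⟨he.2.1, he.1.1, he.2.2, he.1.2⟩
      have hc : ∀ n : ℕ, n.divisorsAntidiagonal.card = n.divisors.card := fun n => by
        rw [← Nat.map_div_right_divisors, Finset.card_map]
      rw [Finset.card_product, hc, hc] at hle
      have hb : ∀ x : ℕ, 1 ≤ x → x ≤ N → (x.divisors.card : ℝ) ≤ C0 * (N : ℝ) ^ ε := by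
        intro x hx hxN
        refine (hdiv x hx).trans (mul_le_mul_of_nonneg_left ?_ (by linarith))
        exact Real.rpow_le_rpow (Nat.cast_nonneg _) (by exact_mod_cast hxN) hε.le
      calc ((S.filter fun q => gq q = γ).card : ℝ)
          ≤ (((p.1 * γ).divisors.card * (p.2 * γ).divisors.card : ℕ) : ℝ) := by
            exact_mod_cast hle
        _ = ((p.1 * γ).divisors.card : ℝ) * ((p.2 * γ).divisors.card : ℝ) := by push_cast; ring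
        _ ≤ (C0 * (N : ℝ) ^ ε) * (C0 * (N : ℝ) ^ ε) := by
            refine mul_le_mul (hb _ (Nat.mul_pos a2 a1) a7) (hb _ (Nat.mul_pos a3 a1) a8)
              (Nat.cast_nonneg _) (by positivity)
        _ = C0 ^ 2 * (N : ℝ) ^ (2 * ε) := by
            rw [two_mul, Real.rpow_add hN0]
            ring
    · rw [Finset.not_nonempty_iff_eq_empty] at hne
      rw [hne, Finset.card_empty, Nat.cast_zero]
      positivity
  calc ∑ γ ∈ Finset.Icc 1 N, ∑ q ∈ S with gq q = γ, ((gq q : ℝ))⁻¹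
      ≤ ∑ γ ∈ Finset.Icc 1 N, C0 ^ 2 * (N : ℝ) ^ (2 * ε) * (γ : ℝ)⁻¹ := by
        refine Finset.sum_le_sum fun γ hγ => ?_
        have h1 : ∑ q ∈ S with gq q = γ, ((gq q : ℝ))⁻¹ =
            ∑ q ∈ S with gq q = γ, (γ : ℝ)⁻¹ := by
          refine Finset.sum_congr rfl fun q hq => ?_
          rw [Finset.mem_filter] at hq
          rw [hq.2]
        rw [h1, Finset.sum_const, nsmul_eq_mul]
        exact mul_le_mul_of_nonneg_right (hcard γ hγ) (by positivity)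
    _ = C0 ^ 2 * (N : ℝ) ^ (2 * ε) * ∑ γ ∈ Finset.Icc 1 N, (γ : ℝ)⁻¹ := by
        rw [Finset.mul_sum]
    _ ≤ _ := by
        refine mul_le_mul_of_nonneg_left ?_ (by positivity)
        have h1 := harmonic_le_one_add_log N
        rw [harmonic_eq_sum_Icc] at h1
        push_cast at h1
        exact h1

theorem pf_HI (hDZ : T_DZ) (hKB : T_KB) : T_HI := by
  classical
  intro δ hδ hδ1
  obtain ⟨C0, hC0, hdiv⟩ := Pool.Agent.H3.PC.DB.pf_DB (δ / 8) (by positivity)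
  obtain ⟨C3, hC3, hZ3⟩ := hDZ (δ / 2) (by positivity) (by linarith)
  refine ⟨C0 ^ 2 * (1 + 4 / δ) * C3, by positivity, ?_⟩
  intro A B T μ ν u X Y Z hA hB hu hX hY hZ
  obtain ⟨N, hN⟩ : ∃ N : ℕ, N = X * Y ^ 2 := ⟨_, rfl⟩
  have hNr : (X : ℝ) * Y ^ 2 = N := by rw [hN]; push_cast; ring
  have hN1 : 1 ≤ N := by rw [hN]; exact Nat.mul_pos hX (pow_pos hY 2)
  have hN1r : (1 : ℝ) ≤ N := by exact_mod_cast hN1
  have hN0 : (0 : ℝ) < N := by linarith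
  have hLam : 0 ≤ Lam A B μ ν := Real.sqrt_nonneg _
  have hZ1r : (1 : ℝ) ≤ Z := by exact_mod_cast hZ
  have hZ0 : (0 : ℝ) < Z := by linarith
  rw [hNr]
  obtain ⟨Q, hQ⟩ : ∃ Q : Finset (ℕ × ℕ × ℕ × ℕ), Q =
      ((Finset.Icc 1 X) ×ˢ ((Finset.Icc 1 X) ×ˢ ((Finset.Icc 1 Y) ×ˢ (Finset.Icc 1 Y)))).filter
        (fun q => q.1 * q.2.1 ≤ X ∧ Z < rd q.1 q.2.1 q.2.2.1 q.2.2.2) := ⟨_, rfl⟩
  have hQm : ∀ q ∈ Q, Gd N q ∧ Z < (fq q).1 * (fq q).2 := by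
    intro q hq
    rw [hQ, Finset.mem_filter, Finset.mem_product, Finset.mem_product, Finset.mem_product,
      Finset.mem_Icc, Finset.mem_Icc, Finset.mem_Icc, Finset.mem_Icc] at hq
    obtain ⟨⟨⟨a1, a2⟩, ⟨b1, b2⟩, ⟨c1, c2⟩, d1, d2⟩, e1, e2⟩ := hq
    refine ⟨⟨a1, b1, c1, d1, ?_⟩, e2⟩
    calc q.2.1 * q.2.2.2 * (q.1 * q.2.2.1) = (q.1 * q.2.1) * (q.2.2.1 * q.2.2.2) := by ring
      _ ≤ X * (Y * Y) := Nat.mul_le_mul e1 (Nat.mul_le_mul c2 d2)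
      _ = N := by rw [hN]; ring
  have hsum : ∑ m ∈ Finset.Icc 1 X, ∑ n ∈ Finset.Icc 1 X, ∑ h ∈ Finset.Icc 1 Y,
      ∑ k ∈ Finset.Icc 1 Y,
      (if m * n ≤ X ∧ Z < rd m n h k then ((m : ℝ) * n * h * k) ^ (-(1 / 2) : ℝ) *
        KK A B u (Real.log n + Real.log k - Real.log m - Real.log h) else 0) =
      ∑ q ∈ Q, ((q.1 : ℝ) * q.2.1 * q.2.2.1 * q.2.2.2) ^ (-(1 / 2) : ℝ) *
        KK A B u (Real.log q.2.1 + Real.log q.2.2.2 - Real.log q.1 - Real.log q.2.2.1) := by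
    rw [hQ, Finset.sum_filter]
    simp only [Finset.sum_product]
  rw [hsum]
  have hterm : ∀ q ∈ Q, ((q.1 : ℝ) * q.2.1 * q.2.2.1 * q.2.2.2) ^ (-(1 / 2) : ℝ) *
        KK A B u (Real.log q.2.1 + Real.log q.2.2.2 - Real.log q.1 - Real.log q.2.2.1) =
      (((fq q).1 : ℝ) * (fq q).2) ^ (-(1 / 2) : ℝ) *
        KK A B u (Real.log (fq q).1 - Real.log (fq q).2) * ((gq q : ℝ))⁻¹ := by
    intro q hq
    obtain ⟨h1, _⟩ := hQm q hq
    obtain ⟨a1, a2, a3, _, a5, a6, _, _⟩ := h1.props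
    obtain ⟨c1, c2, c3, c4, _⟩ := h1
    have g0 : (0 : ℝ) < gq q := by exact_mod_cast a1
    have f10 : (0 : ℝ) < (fq q).1 := by exact_mod_cast a2
    have f20 : (0 : ℝ) < (fq q).2 := by exact_mod_cast a3
    have q10 : (0 : ℝ) < q.1 := by exact_mod_cast c1
    have q20 : (0 : ℝ) < q.2.1 := by exact_mod_cast c2
    have q30 : (0 : ℝ) < q.2.2.1 := by exact_mod_cast c3
    have q40 : (0 : ℝ) < q.2.2.2 := by exact_mod_cast c4
    have r5 : ((fq q).1 : ℝ) * gq q = q.2.1 * q.2.2.2 := by exact_mod_cast a5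
    have r6 : ((fq q).2 : ℝ) * gq q = q.1 * q.2.2.1 := by exact_mod_cast a6
    have e1 : (q.1 : ℝ) * q.2.1 * q.2.2.1 * q.2.2.2 =
        (((fq q).1 : ℝ) * (fq q).2) * ((gq q : ℝ) ^ (2 : ℕ)) := by
      calc (q.1 : ℝ) * q.2.1 * q.2.2.1 * q.2.2.2 = (q.2.1 * q.2.2.2) * (q.1 * q.2.2.1) := by ring
        _ = _ := by rw [← r5, ← r6]; ring
    have e2 : Real.log q.2.1 + Real.log q.2.2.2 - Real.log q.1 - Real.log q.2.2.1 =
        Real.log (fq q).1 - Real.log (fq q).2 := by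
      have l1 : Real.log q.2.1 + Real.log q.2.2.2 = Real.log (fq q).1 + Real.log (gq q) := by
        rw [← Real.log_mul q20.ne' q40.ne', ← r5, Real.log_mul f10.ne' g0.ne']
      have l2 : Real.log q.1 + Real.log q.2.2.1 = Real.log (fq q).2 + Real.log (gq q) := by
        rw [← Real.log_mul q10.ne' q30.ne', ← r6, Real.log_mul f20.ne' g0.ne']
      linarith
    have e3 : ((gq q : ℝ) ^ (2 : ℕ)) ^ (-(1 / 2) : ℝ) = (gq q : ℝ)⁻¹ := by
      rw [← Real.rpow_natCast, ← Real.rpow_mul g0.le, show ((2 : ℕ) : ℝ) * (-(1 / 2)) = -1 by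
        norm_num, Real.rpow_neg_one]
    rw [e1, e2, Real.mul_rpow (by positivity) (by positivity), e3]
    ring
  rw [Finset.sum_congr rfl hterm]
  obtain ⟨F, hF⟩ : ∃ F : Finset (ℕ × ℕ), F = Q.image fq := ⟨_, rfl⟩
  have hFm : ∀ p ∈ F, 1 ≤ p.1 ∧ 1 ≤ p.2 ∧ Nat.Coprime p.1 p.2 ∧ Z < p.1 * p.2 ∧
      p.1 * p.2 ≤ N := by
    intro p hp
    rw [hF, Finset.mem_image] at hp
    obtain ⟨q, hq, rfl⟩ := hp
    obtain ⟨h1, h2⟩ := hQm q hq
    obtain ⟨a1, a2, a3, a4, a5, a6, _, _⟩ := h1.props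
    refine ⟨a2, a3, a4, h2, ?_⟩
    obtain ⟨_, _, _, _, h5⟩ := h1
    rw [← a5, ← a6] at h5
    refine le_trans ?_ h5
    exact Nat.mul_le_mul (Nat.le_mul_of_pos_right _ a1) (Nat.le_mul_of_pos_right _ a1)
  obtain ⟨W, hW⟩ : ∃ W : ℝ, W = C0 ^ 2 * (N : ℝ) ^ (2 * (δ / 8)) * (1 + Real.log N) := ⟨_, rfl⟩
  have hlogN : 0 ≤ Real.log N := Real.log_nonneg hN1r
  have hW0 : 0 ≤ W := by rw [hW]; positivity
  have hW1 : W ≤ C0 ^ 2 * (1 + 4 / δ) * (N : ℝ) ^ (δ / 2) := by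
    have h1 : Real.log N ≤ (N : ℝ) ^ (δ / 4) / (δ / 4) :=
      Real.log_le_rpow_div hN0.le (by positivity)
    have h2 : (1 : ℝ) ≤ (N : ℝ) ^ (δ / 4) := Real.one_le_rpow hN1r (by positivity)
    have h3 : 1 + Real.log N ≤ (1 + 4 / δ) * (N : ℝ) ^ (δ / 4) := by
      have h4 : (N : ℝ) ^ (δ / 4) / (δ / 4) = 4 / δ * (N : ℝ) ^ (δ / 4) := by
        field_simp
      rw [h4] at h1
      linarith
    rw [hW]
    calc C0 ^ 2 * (N : ℝ) ^ (2 * (δ / 8)) * (1 + Real.log N)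
        ≤ C0 ^ 2 * (N : ℝ) ^ (2 * (δ / 8)) * ((1 + 4 / δ) * (N : ℝ) ^ (δ / 4)) :=
          mul_le_mul_of_nonneg_left h3 (by positivity)
      _ = C0 ^ 2 * (1 + 4 / δ) * ((N : ℝ) ^ (2 * (δ / 8)) * (N : ℝ) ^ (δ / 4)) := by ring
      _ = _ := by
          rw [← Real.rpow_add hN0]
          congr 2
          ring
  have hmaps : ∀ q ∈ Q, fq q ∈ F := fun q hq => by
    rw [hF]
    exact Finset.mem_image_of_mem _ hq
  have hstep : ∑ q ∈ Q, (((fq q).1 : ℝ) * (fq q).2) ^ (-(1 / 2) : ℝ) *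
        KK A B u (Real.log (fq q).1 - Real.log (fq q).2) * ((gq q : ℝ))⁻¹ ≤
      W * ∑ p ∈ F, ((p.1 : ℝ) * p.2) ^ (-(1 / 2) + δ / 2) *
        KK A B u (Real.log p.1 - Real.log p.2) := by
    rw [← Finset.sum_fiberwise_of_maps_to hmaps, Finset.mul_sum]
    refine Finset.sum_le_sum fun p hp => ?_
    obtain ⟨b1, b2, _, b4, _⟩ := hFm p hp
    have hKK := (hKB A B u (Real.log p.1 - Real.log p.2) (by linarith)).2.1
    have h1 : ∑ q ∈ Q with fq q = p, (((fq q).1 : ℝ) * (fq q).2) ^ (-(1 / 2) : ℝ) *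
        KK A B u (Real.log (fq q).1 - Real.log (fq q).2) * ((gq q : ℝ))⁻¹ =
        ((p.1 : ℝ) * p.2) ^ (-(1 / 2) : ℝ) * KK A B u (Real.log p.1 - Real.log p.2) *
          ∑ q ∈ Q with fq q = p, ((gq q : ℝ))⁻¹ := by
      rw [Finset.mul_sum]
      refine Finset.sum_congr rfl fun q hq => ?_
      rw [Finset.mem_filter] at hq
      rw [hq.2]
    rw [h1]
    have h2 := fibre hN1 hC0 (by positivity : 0 < δ / 8) hdiv (Q.filter fun q => fq q = p) p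
      (fun q hq => by
        rw [Finset.mem_filter] at hq
        exact ⟨(hQm q hq.1).1, hq.2⟩)
    rw [← hW] at h2
    have hp1 : (1 : ℝ) ≤ (p.1 : ℝ) * p.2 := by
      have : 1 ≤ p.1 * p.2 := Nat.mul_pos b1 b2
      exact_mod_cast this
    have h3 : ((p.1 : ℝ) * p.2) ^ (-(1 / 2) : ℝ) ≤ ((p.1 : ℝ) * p.2) ^ (-(1 / 2) + δ / 2) :=
      Real.rpow_le_rpow_of_exponent_le hp1 (by linarith)
    calc ((p.1 : ℝ) * p.2) ^ (-(1 / 2) : ℝ) * KK A B u (Real.log p.1 - Real.log p.2) *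
          ∑ q ∈ Q with fq q = p, ((gq q : ℝ))⁻¹
        ≤ ((p.1 : ℝ) * p.2) ^ (-(1 / 2) + δ / 2) * KK A B u (Real.log p.1 - Real.log p.2) * W := by
          refine mul_le_mul (mul_le_mul_of_nonneg_right h3 hKK) h2 ?_ ?_
          · exact Finset.sum_nonneg fun q _ => by positivity
          · exact mul_nonneg (by positivity) hKK
      _ = _ := by ring
  refine hstep.trans ?_
  by_cases hne : F.Nonempty
  · obtain ⟨p₀, hp₀⟩ := hne
    obtain ⟨_, _, _, b4, b5⟩ := hFm p₀ hp₀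
    have hZN : (Z : ℝ) ≤ N := by
      have : Z ≤ N := by omega
      exact_mod_cast this
    have h4 := hZ3 A B T μ ν u Z N F hA hB hu hZ1r hZN (fun p hp => by
      obtain ⟨c1, c2, c3, c4, c5⟩ := hFm p hp
      refine ⟨c1, c2, c3, ?_, ?_⟩
      · have : Z ≤ p.1 * p.2 := by omega
        exact_mod_cast this
      · exact_mod_cast c5)
    rw [show 2 * (δ / 2) = δ by ring] at h4
    have h5 : (N : ℝ) ^ (δ / 2) ≤ (N : ℝ) ^ δ :=
      Real.rpow_le_rpow_of_exponent_le hN1r (by linarith)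
    have h6 : 0 ≤ C3 * (u * (Z : ℝ) ^ (-(1 / 2) + δ) + (N : ℝ) ^ (1 / 2 + δ)) * Lam A B μ ν := by
      positivity
    calc W * ∑ p ∈ F, ((p.1 : ℝ) * p.2) ^ (-(1 / 2) + δ / 2) *
          KK A B u (Real.log p.1 - Real.log p.2)
        ≤ (C0 ^ 2 * (1 + 4 / δ) * (N : ℝ) ^ (δ / 2)) *
          (C3 * (u * (Z : ℝ) ^ (-(1 / 2) + δ) + (N : ℝ) ^ (1 / 2 + δ)) * Lam A B μ ν) := by
          refine (mul_le_mul_of_nonneg_left h4 hW0).trans (mul_le_mul_of_nonneg_right hW1 h6)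
      _ ≤ (C0 ^ 2 * (1 + 4 / δ) * (N : ℝ) ^ δ) *
          (C3 * (u * (Z : ℝ) ^ (-(1 / 2) + δ) + (N : ℝ) ^ (1 / 2 + δ)) * Lam A B μ ν) := by
          refine mul_le_mul_of_nonneg_right (mul_le_mul_of_nonneg_left h5 (by positivity)) h6
      _ = _ := by ring
  · rw [Finset.not_nonempty_iff_eq_empty] at hne
    rw [hne, Finset.sum_empty, mul_zero]
    positivity

end Pool.Agent.H49.OT
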